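import Pool.Agent.K3h88.VR.Stm

/-!
# Brick COL of project VR: the colouring from the maps and a good set
-/

set_option autoImplicit false

namespace Pool.Agent.K3h91.VR

open Pool.Agent.K3h88.VR

open Classical in
/-- the colouring -/
noncomputable def col {n m k : ℕ} (Φ : Fin k → (E n →ₗ[ZMod 2] E m)) (B : Finset (E m)) (x : E n) :
    Fin (k + 1) :=
  if h : ∃ i, Φ i x ∈ B then (Classical.choose h).castSucc else Fin.last k

theorem col_castSucc {n m k : ℕ} {Φ : Fin k → (E n →ₗ[ZMod 2] E m)} {B : Finset (E m)} {x : E n}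
    {i : Fin k} (h : col Φ B x = i.castSucc) : Φ i x ∈ B := by
  unfold col at h
  split_ifs at h with h1
  · have h2 : Classical.choose h1 = i := Fin.castSucc_injective k h
    rw [← h2]
    exact Classical.choose_spec h1
  · exact absurd h.symm (Fin.castSucc_lt_last i).ne

theorem col_last {n m k : ℕ} {Φ : Fin k → (E n →ₗ[ZMod 2] E m)} {B : Finset (E m)} {x : E n}
    (h : col Φ B x = Fin.last k) (i : Fin k) : Φ i x ∉ B := by
  intro hi
  unfold col at h
  rw [dif_pos ⟨i, hi⟩] at h
  exact absurd h (Fin.castSucc_lt_last _).ne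

theorem zero_notMem {m : ℕ} {B : Finset (E m)} (hB : SumFree B) : (0 : E m) ∉ B := by
  intro h
  have h1 := hB 0 h 0 h
  rw [add_zero] at h1
  exact h1 h

theorem t_COL : S_COL := by
  intro n m d ρ k Φ B hSF hM hΦ hR
  rcases hR (col Φ B) with ⟨i, hi, V, hV, hc⟩ | ⟨i, hi, V, hV, hc⟩
  · -- one of the first `k` colours
    have hik : (i : ℕ) < k := by omega
    obtain ⟨i0, rfl⟩ : ∃ i0 : Fin k, i = i0.castSucc := ⟨⟨i, hik⟩, by ext; rfl⟩
    obtain ⟨f, hf⟩ := exists_linearIndependent_of_le_finrank (R := ZMod 2) (M := V) (n := 2)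
      (by rw [hV])
    have h0 : f 0 ≠ 0 := hf.ne_zero 0
    have h1 : f 1 ≠ 0 := hf.ne_zero 1
    have h2 : f 0 + f 1 ≠ 0 := by
      intro h
      have h3 := (linearIndependent_fin2.1 hf).2 (-1)
      apply h3
      rw [neg_smul, one_smul]
      exact (eq_neg_of_add_eq_zero_left h).symm
    have hB : ∀ v : V, v ≠ 0 → Φ i0 (v : E n) ∈ B := fun v hv =>
      col_castSucc (hc v v.2 (fun h => hv (Subtype.ext h)))
    have h3 := hSF _ (hB _ h0) _ (hB _ h1)
    apply h3
    rw [← map_add]
    exact hB _ h2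
  · -- the last colour
    have hil : i = Fin.last k := by
      ext
      simpa using hi
    subst hil
    obtain ⟨j, hj⟩ := hΦ V hV
    obtain ⟨f, hf⟩ := exists_linearIndependent_of_le_finrank (R := ZMod 2)
      (M := (V.map (Φ j) : Submodule (ZMod 2) (E m))) (n := ρ + 1) hj
    have hf' : LinearIndependent (ZMod 2) (fun a => ((f a : V.map (Φ j)) : E m)) :=
      hf.map' (V.map (Φ j)).subtype (Submodule.ker_subtype _)
    obtain ⟨w, hw, hwB⟩ := hM (Submodule.span (ZMod 2)
      (Set.range fun a => ((f a : V.map (Φ j)) : E m))) (by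
        rw [finrank_span_eq_card hf', Fintype.card_fin])
    have hle : Submodule.span (ZMod 2) (Set.range fun a => ((f a : V.map (Φ j)) : E m)) ≤
        V.map (Φ j) := by
      rw [Submodule.span_le]
      rintro _ ⟨a, rfl⟩
      exact (f a).2
    obtain ⟨v, hv, rfl⟩ := hle hw
    have hv0 : v ≠ 0 := by
      rintro rfl
      rw [map_zero] at hwB
      exact zero_notMem hSF hwB
    exact col_last (hc v hv hv0) j hwB

end Pool.Agent.K3h91.VR
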